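import Pool.Agent.H50.V0F.Row
import Pool.Agent.H44.V0F.S5

/-!
# The rows of the target on parts of the event

`rwe`: the rows on an event of mass `≥ π₀`, given a closed function of a later window with small
cells.
-/

set_option autoImplicit false

namespace Pool.V0F

open Finset Real MvPolynomial
open Pool.Agent.H49.Ent Pool.Agent.H32.Dense Pool.STK Pool.KA Pool.KSAT Pool.K2S Pool.PB Pool.GEN
open Pool.S6C Pool.RCD Pool.LA91 Pool.AVG96 Pool.OWN68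

variable {m : ℕ}

/-- **(RWE)** The rows on parts of the event, given a closed function `zw` of a later window `w₁`
with small cells. -/
theorem rwe {S : PCl m} {c : ℕ → Fin m} {r : ℕ} {sn : ℕ → ℝ → ℝ} {G : Set ℝ} {b o φ : ℝ}
    (L : Lad S c r sn G b o φ) (hI : (range r).image c = univ.erase (c r)) {w w₁ x x' η : ℝ}
    {p n : ℕ → ℝ} {pr P₁ P₂ h δ rk E : ℝ} (hw : w ∈ G) (hx : x ∈ G) (hx' : x' ∈ G)
    (hbw : b ≤ w) (hwx : w ≤ x) (hxx : x + 60 * ((r : ℝ) + 1) * φ ≤ x') (hxo : x' ≤ o)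
    (hx1 : x' + 60 * ((r : ℝ) + 1) * φ ≤ 1) (hp : ∀ i < r, sn i b - φ ≤ p i)
    (hpr : sn r w - φ ≤ pr) (hn : ∀ i < r, sn i x' ≤ n i ∧ n i ≤ 1) (tp : Tp r sn b φ n)
    (hrk : rk < 1) (hE : 0 ≤ E) (hatt : AttG S ((range r).image c) (c r) w (sn r w) rk E)
    (hP0 : 0 ≤ P₁) (hP : P₁ ≤ P₂) (hPE : P₂ + E ≤ 1)
    (hPx : P₂ + 60 * ((r : ℝ) + 1) * φ ≤ sn r x)
    (hPw : P₂ + 60 * ((r : ℝ) + 1) * φ ≤ sn r w + (x' - w))
    (hraw : RawN S (univ.erase (c r)) (c r) P₁ (P₂ - P₁) h δ) (hw₁ : w ≤ w₁) (hw₁1 : w₁ ≤ 1)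
    (hη : RNum S (fun J F => ptr F J) (vg w₁) η) {π₀ : ℝ} (hπ₀ : 0 < π₀) {ε : ℝ} (hε : 0 < ε) :
    ∃ k : ℝ, 0 < k ∧ ∃ e₀ : ℝ, 0 < e₀ ∧ ∀ K : ℕ, Bas S (fun J F A =>
      ∀ (V : Type) (z : F.Ω → V), Cl2 (ptr F J) (vg w₁ J F) A z →
      (∀ v, (cnt F.p (ptr F J) (fun ω => A ω ∧ z ω = v) : ℝ) ≤ Real.exp (-((-η - k) * J))) →
      ∀ u u₁ u₂,
      (qJets m c 0 r 0 (fun _ _ => b) (fun l _ => p l) (fun l _ => n l)).P K e₀ J F A u →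
      (qJet m ((range r).image c) (c r) 0 w pr P₁).P K e₀ J F A u₁ →
      (qJet m ((range r).image c) (c r) 0 w pr P₂).P K e₀ J F A u₂ →
      ∀ B : F.Ω → Prop, Sub B A → π₀ * Pe F.p A ≤ Pe F.p B →
      CH (Pool.Agent.H49.Ent.cond F.p B True) u₂ (fun ω => (u₁ ω, (u ω, (z ω, F.W ω)))) ≤
        ((1 - h) * (P₂ - P₁) * Real.log 2 + δ + 40 * ((r : ℝ) + 1) ^ 2 * φ + ε) * J) := by
  obtain ⟨k, hk, e₀, he₀, H⟩ := row L hI hw hx hx' hbw hwx hxx hxo hx1 hp hpr hn tp hrk hE hatt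
    hP0 hP hPE hPx hPw hraw (half_pos hε)
  obtain ⟨κ, hκ, H'⟩ := hη.max L.pos (ε / 2) (half_pos hε)
  obtain ⟨J₁, hJ₁⟩ := exists_nat_ge (-Real.log π₀ / κ)
  refine ⟨ε / 2 / 2, by positivity, e₀, he₀, fun K => Bas.mono J₁
    (((Pool.GRW.bas_part (H K) (inv_pos.2 hπ₀)).and H').and (pos_bas L.pos)) ?_⟩
  rintro J hJ F A ⟨⟨H, H'⟩, hA⟩ V z hz hc u u₁ u₂ hu hu₁ hu₂ B hB hPB
  have hJ0 : (0 : ℝ) ≤ J := Nat.cast_nonneg J
  have hJ1 : (J₁ : ℝ) ≤ J := by exact_mod_cast hJ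
  have hPB' : Pe F.p A ≤ π₀⁻¹ * Pe F.p B := by
    rw [inv_mul_eq_div, le_div_iff₀ hπ₀, mul_comm]
    exact hPB
  have hB0 : 0 < Pe F.p B := lt_of_lt_of_le (mul_pos hπ₀ hA) hPB
  have hexp : Real.exp (-(κ * J)) * Pe F.p A ≤ Pe F.p B := by
    refine le_trans (mul_le_mul_of_nonneg_right ?_ hA.le) hPB
    rw [← Real.exp_log hπ₀]
    refine Real.exp_le_exp.2 ?_
    have := hJ₁.trans hJ1
    rw [div_le_iff₀ hκ] at this
    linarith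
  obtain ⟨-, -, hmax⟩ := H' V z hz hc B hB hexp
  obtain ⟨V', z', hz', -⟩ := mx_fin (fun J F => ptr F J) (vg w) F hB0
  have h1 := H B hB hPB' V' z' (hz' k hk.le) u u₁ u₂ ((qJets m c 0 r 0 _ _ _).sub hB hu)
    ((qJet m _ _ _ _ _ _).sub hB hu₁) ((qJet m _ _ _ _ _ _).sub hB hu₂)
  have h2 := (hmax V' z' ((hz' 0 le_rfl).1.mono ⟨fun x => x, fun _ _ => rfl⟩ (by
    obtain ⟨ψ, hψ⟩ := vg_mono hw₁ hw₁1 J F
    exact ⟨ψ, fun ω _ => hψ ω⟩))).2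
  have h0 := (isLaw_cond F.isLaw hB0).nonneg
  have h3 := CH_le_add h0 u₂ z' (fun ω => (u₁ ω, (u ω, (z ω, F.W ω))))
  have h4 : CH (Pool.Agent.H49.Ent.cond F.p B True) z' (fun ω => (u₁ ω, (u ω, (z ω, F.W ω)))) ≤
      CH (Pool.Agent.H49.Ent.cond F.p B True) z' z := CH_mono_cond h0 fun ω ω' _ _ e => by
    simp only [Prod.mk.injEq] at e
    exact e.2.2.1
  have h5 : CH (Pool.Agent.H49.Ent.cond F.p B True) u₂
      (fun ω => (z' ω, (u₁ ω, (u ω, (z ω, F.W ω))))) ≤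
      CH (Pool.Agent.H49.Ent.cond F.p B True) u₂ (fun ω => (u₁ ω, (u ω, (z' ω, F.W ω)))) :=
    CH_mono_cond h0 fun ω ω' _ _ e => by
      simp only [Prod.mk.injEq] at e ⊢
      exact ⟨e.2.1, e.2.2.1, e.1, e.2.2.2.2⟩
  nlinarith

end Pool.V0F
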