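import Pool.Agent.H44.V0F.S
import Pool.Agent.H2.GEN.AttF

/-!
# Natural closeness of the charts of an earlier window

`t_kap`: a chain of charts, the differences bounded on the boxes of the later chart; the increments
of the differences along the natural curve from the point gain the distance of the windows.
-/

set_option autoImplicit false

namespace Pool.V0F

open Finset Real MvPolynomial
open Pool.GEN Pool.CHT

/-- **The increment** of a polynomial in one variable which is bounded on a long interval. -/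
theorem kap_one (K : ℕ) : ∃ C : ℝ, 1 ≤ C ∧ ∀ (f : Polynomial ℝ) (M : ℝ) (s P : ℕ),
    f.natDegree ≤ K → (∀ t ∈ Set.Icc (0 : ℝ) (2 ^ s / 2 ^ P), |f.eval t| ≤ M) →
    |f.eval 1 - f.eval 0| ≤ C * 2 ^ (P * K) * M / 2 ^ s := by
  obtain ⟨C, hC, hco⟩ := Pool.Agent.H40.FR.unit_coef K
  refine ⟨C * (K + 1), by nlinarith [(Nat.cast_nonneg K : (0 : ℝ) ≤ K)], ?_⟩
  intro f M s P hf hM
  obtain ⟨A, hA⟩ : ∃ A : ℝ, A = 2 ^ s / 2 ^ P := ⟨_, rfl⟩
  have hA0 : 0 < A := by rw [hA]; positivity
  rw [← hA] at hM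
  have hM0 : 0 ≤ M := (abs_nonneg _).trans (hM 0 ⟨le_rfl, hA0.le⟩)
  obtain ⟨g, hg⟩ : ∃ g : Polynomial ℝ, g = f.comp (Polynomial.C A * Polynomial.X) := ⟨_, rfl⟩
  have hgc : ∀ j, g.coeff j = f.coeff j * A ^ j := by
    intro j
    rw [hg, Polynomial.comp_C_mul_X_coeff]
  have hgd : g.natDegree ≤ K := by
    rw [hg]
    refine (Polynomial.natDegree_comp_le).trans ?_
    have h0 : (Polynomial.C A * Polynomial.X : Polynomial ℝ).natDegree ≤ 1 :=
      (Polynomial.natDegree_C_mul_le _ _).trans Polynomial.natDegree_X_le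
    refine (Nat.mul_le_mul_left _ h0).trans ?_
    omega
  have h1 := hco g M hgd (fun t ht => by
    rw [hg, Polynomial.eval_comp, Polynomial.eval_mul, Polynomial.eval_C, Polynomial.eval_X]
    exact hM _ ⟨mul_nonneg hA0.le ht.1, mul_le_of_le_one_right hA0.le ht.2⟩)
  have hfc : ∀ j, |f.coeff j| ≤ C * M / A ^ j := by
    intro j
    have h2 := h1 j
    rw [hgc, abs_mul, abs_of_pos (pow_pos hA0 j)] at h2
    rwa [le_div_iff₀ (pow_pos hA0 j)]
  have hd : f.natDegree < K + 1 := by omega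
  have e1 : f.eval 1 = ∑ j ∈ range (K + 1), f.coeff j := by
    rw [Polynomial.eval_eq_sum_range' hd]
    exact Finset.sum_congr rfl fun j _ => by rw [one_pow, mul_one]
  have e0 : f.eval 0 = f.coeff 0 := by rw [Polynomial.coeff_zero_eq_eval_zero]
  have s1 : ∑ j ∈ range (K + 1), f.coeff j =
      ∑ j ∈ range K, f.coeff (j + 1) + f.coeff 0 := Finset.sum_range_succ' _ _
  rw [e1, e0, s1, add_sub_cancel_right]
  have hterm : ∀ j ∈ range K, |f.coeff (j + 1)| ≤ C * 2 ^ (P * K) * M / 2 ^ s := by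
    intro j hj
    refine (hfc (j + 1)).trans ?_
    have hj' : j + 1 ≤ K := by
      have := mem_range.1 hj
      omega
    rw [hA, div_pow, div_div_eq_mul_div, ← pow_mul, ← pow_mul,
      div_le_div_iff₀ (by positivity) (by positivity)]
    have h2 : (2 : ℝ) ^ (P * (j + 1)) ≤ 2 ^ (P * K) :=
      pow_le_pow_right₀ (by norm_num) (Nat.mul_le_mul_left _ hj')
    have h3 : (2 : ℝ) ^ s ≤ 2 ^ (s * (j + 1)) :=
      pow_le_pow_right₀ (by norm_num) (Nat.le_mul_of_pos_right _ (Nat.succ_pos j))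
    have hCM : 0 ≤ C * M := mul_nonneg (by linarith) hM0
    calc C * M * 2 ^ (P * (j + 1)) * 2 ^ s ≤ C * M * 2 ^ (P * K) * 2 ^ (s * (j + 1)) :=
          mul_le_mul (mul_le_mul_of_nonneg_left h2 hCM) h3 (by positivity) (by positivity)
      _ = _ := by ring
  refine (Finset.abs_sum_le_sum_abs _ _).trans ((Finset.sum_le_sum hterm).trans ?_)
  rw [Finset.sum_const, Finset.card_range, nsmul_eq_mul]
  have h4 : 0 ≤ C * 2 ^ (P * K) * M / 2 ^ s :=
    div_nonneg (mul_nonneg (mul_nonneg (by linarith) (by positivity)) hM0) (by positivity)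
  have h5 : (K : ℝ) * (C * 2 ^ (P * K) * M / 2 ^ s) ≤
      ((K : ℝ) + 1) * (C * 2 ^ (P * K) * M / 2 ^ s) :=
    mul_le_mul_of_nonneg_right (by linarith) h4
  refine h5.trans (le_of_eq ?_)
  ring

/-- **The increment** of a polynomial along the natural curve from `x` to `b`. -/
theorem kap_step (D r : ℕ) : ∃ C : ℕ, ∀ {m : ℕ} {c : ℕ → Fin m} {l : ℕ}
    {ψ : ℕ → MvPolynomial (Option (Fin m)) ℝ} {E : MvPolynomial (Option (Fin m)) ℝ}
    {g : ℕ → ℕ} {a s P N : ℕ} {M : ℝ} {x b : Option (Fin m) → ℝ}, l < r →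
    Set.InjOn c (Set.Iio r) → (∀ l, (ψ l).totalDegree ≤ D) → (∀ l, DepC c l (ψ l)) →
    E.totalDegree ≤ D → DepC c l E → 0 ≤ M →
    (∀ b, NBx c ψ g a (x none) l b → |eval b E| ≤ M) →
    (∀ l' < l, |x (some (c l')) - eval x (ψ l')| ≤ 2 ^ N / 2 ^ g l') →
    |b none - x none| ≤ 2 ^ P / 2 ^ (a + s) →
    (∀ l' < l, |(b (some (c l')) - eval b (ψ l')) - (x (some (c l')) - eval x (ψ l'))| ≤
      2 ^ N / 2 ^ (g l' + s)) →
    |eval b E - eval x E| ≤ 2 ^ (C * (P + N + 1)) * M / 2 ^ s := by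
  obtain ⟨c₀, D₁, hD₁, hdil⟩ := nbx_dil r (fun _ => D)
  obtain ⟨K, hK⟩ : ∃ K, K = ∑ i ∈ range r, D * dga (fun _ => D) i := ⟨_, rfl⟩
  obtain ⟨C₁, hC₁, hone⟩ := kap_one K
  obtain ⟨c₁, hc₁⟩ := pow_unbounded_of_one_lt C₁ (one_lt_two (α := ℝ))
  refine ⟨c₁ + K + c₀ + D₁, ?_⟩
  intro m c l ψ E g a s P N M x b hl hc hψ hdep hEd hE hM0 hM hx hb0 hb
  have hcl : Set.InjOn c (Set.Iio l) := hc.mono (Set.Iio_subset_Iio hl.le)
  have hKl : D * dga (fun _ => D) l ≤ K := by
    rw [hK]
    exact Finset.single_le_sum (f := fun i => D * dga (fun _ => D) i) (fun _ _ => Nat.zero_le _)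
      (mem_range.2 hl)
  obtain ⟨p, h1, h2, h3, h4, h5⟩ := curve_all hcl hψ hdep x b l le_rfl
  obtain ⟨f, hf⟩ : ∃ f : Polynomial ℝ, f = MvPolynomial.aeval p E := ⟨_, rfl⟩
  have hfe : ∀ s, f.eval s = eval (fun o => (p o).eval s) E := fun s => by
    rw [hf, Pool.KBX.eval_aeval_poly]
  have hfd : f.natDegree ≤ K := by
    rw [hf]
    exact (natDegree_aeval_mul E p h1 hEd).trans hKl
  have hbox : ∀ t ∈ Set.Icc (0 : ℝ) (2 ^ s / 2 ^ P), |f.eval t| ≤
      2 ^ (c₀ + (N + 1) * D₁) * M := by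
    intro t ht
    rw [hfe]
    refine hdil (N + 1) hl hcl hψ hdep hE hEd hM0 hM _ ?_ fun l' hl' => ?_
    · show |(p none).eval t - x none| ≤ _
      have e1 : (p none).eval t - x none = t * (b none - x none) := by
        rw [h2]; ring
      rw [e1, abs_mul, abs_of_nonneg ht.1]
      calc t * |b none - x none| ≤ (2 ^ s / 2 ^ P) * (2 ^ P / 2 ^ (a + s)) :=
            mul_le_mul ht.2 hb0 (abs_nonneg _) (by positivity)
        _ = 1 / 2 ^ a := by
          rw [pow_add]
          field_simp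
    · show |(p (some (c l'))).eval t - eval (fun o => (p o).eval t) (ψ l')| ≤ _
      rw [h3 l' hl', add_sub_cancel_left]
      refine (abs_add_le _ _).trans ?_
      rw [abs_mul, abs_of_nonneg ht.1]
      have h7 : t * |(b (some (c l')) - eval b (ψ l')) - (x (some (c l')) - eval x (ψ l'))| ≤
          2 ^ N / 2 ^ g l' := by
        calc _ ≤ (2 ^ s / 2 ^ P) * (2 ^ N / 2 ^ (g l' + s)) :=
              mul_le_mul ht.2 (hb l' hl') (abs_nonneg _) (by positivity)
          _ = (2 ^ N / 2 ^ g l') / 2 ^ P := by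
            rw [pow_add]
            field_simp
          _ ≤ 2 ^ N / 2 ^ g l' := div_le_self (by positivity) (one_le_pow₀ (by norm_num))
      have h8 : (2 : ℝ) ^ (N + 1) / 2 ^ g l' = 2 ^ N / 2 ^ g l' + 2 ^ N / 2 ^ g l' := by
        rw [pow_succ]; ring
      rw [h8]
      exact add_le_add (hx l' hl') h7
  have h6 := hone f _ s P hfd hbox
  have e0 : f.eval 0 = eval x E := by
    rw [hfe]
    exact hE _ _ (by
      show (p none).eval 0 = x none
      rw [h2]; ring) h4
  have e1 : f.eval 1 = eval b E := by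
    rw [hfe]
    exact hE _ _ (by
      show (p none).eval 1 = b none
      rw [h2]; ring) h5
  rw [e0, e1] at h6
  refine h6.trans (div_le_div_of_nonneg_right ?_ (by positivity))
  have h7 : C₁ * 2 ^ (P * K) * (2 ^ (c₀ + (N + 1) * D₁) * M) ≤
      2 ^ c₁ * 2 ^ (P * K) * (2 ^ (c₀ + (N + 1) * D₁) * M) := by
    refine mul_le_mul_of_nonneg_right ?_ (by positivity)
    exact mul_le_mul_of_nonneg_right hc₁.le (by positivity)
  refine h7.trans ?_
  have h8 : (2 : ℝ) ^ c₁ * 2 ^ (P * K) * (2 ^ (c₀ + (N + 1) * D₁) * M) =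
      2 ^ (c₁ + P * K + (c₀ + (N + 1) * D₁)) * M := by
    rw [pow_add, pow_add]; ring
  rw [h8]
  refine mul_le_mul_of_nonneg_right (pow_le_pow_right₀ (by norm_num) ?_) hM0
  nlinarith [Nat.zero_le P, Nat.zero_le N, Nat.zero_le K, Nat.zero_le D₁, Nat.zero_le c₁,
    Nat.zero_le c₀, Nat.zero_le (P * c₁), Nat.zero_le (N * c₁), Nat.zero_le (P * c₀),
    Nat.zero_le (N * c₀), Nat.zero_le (N * K), Nat.zero_le (P * D₁)]

theorem kap_aux (D r L : ℕ) : ∃ C : ℕ, ∀ {m : ℕ} {c : ℕ → Fin m} {n P : ℕ}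
    {ψ : ℕ → ℕ → MvPolynomial (Option (Fin m)) ℝ} {g X : ℕ → ℕ → ℕ} {a s : ℕ → ℕ}
    {κ : ℕ → ℕ → ℝ} {x : Option (Fin m) → ℝ}, Set.InjOn c (Set.Iio r) →
    (∀ k l, (ψ k l).totalDegree ≤ D) → (∀ k l, DepC c l (ψ k l)) → (n : ℝ) ≤ 2 ^ P →
    (∀ k < n, ∀ l < r, ∀ b, NBx c (ψ (k + 1)) (g (k + 1)) (a (k + 1)) (x none) l b →
      |eval b (ψ k l) + κ k l - eval b (ψ (k + 1) l)| ≤ 2 ^ P / 2 ^ X k l) →
    (∀ k ≤ n, ∀ l < r, |x (some (c l)) - eval x (ψ k l)| ≤ 2 ^ P / 2 ^ g k l) →
    (∀ k < n, a (k + 1) + s k ≤ a n + P) → (∀ k < n, ∀ l < r, g (k + 1) l + s k ≤ g n l + P) →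
    (∀ k < n, ∀ l < r, g n l ≤ X k l + s k + P) → ∀ l < L, l < r → ∀ b,
      NBx c (ψ n) (g n) (a n) (x none) l b → ∀ k ≤ n,
      |(eval b (ψ k l) - eval b (ψ n l)) - (eval x (ψ k l) - eval x (ψ n l))| ≤
        2 ^ (C * (P + 1)) / 2 ^ g n l := by
  induction L with
  | zero =>
    refine ⟨0, ?_⟩
    intro m c n P ψ g X a s κ x _ _ _ _ _ _ _ _ _ l hl
    exact absurd hl (Nat.not_lt_zero l)
  | succ L ih =>
    obtain ⟨C, hCL⟩ := ih
    obtain ⟨C₁, hst⟩ := kap_step D r
    refine ⟨max C (C₁ * (C + 4) + 3), ?_⟩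
    intro m c n P ψ g X a s κ x hc hdeg hdep hn H1 H2 H3 H4 H5 l hl hlr b hb k hk
    have hIH := hCL (κ := κ) hc hdeg hdep hn H1 H2 H3 H4 H5
    rcases Nat.lt_or_ge l L with h | h
    · refine (hIH l h hlr b hb k hk).trans (div_le_div_of_nonneg_right ?_ (by positivity))
      exact pow_le_pow_right₀ (by norm_num) (Nat.mul_le_mul_right _ (le_max_left _ _))
    have hlL : l = L := by omega
    obtain ⟨N, hN⟩ : ∃ N, N = C * (P + 1) + 2 * P + 2 := ⟨_, rfl⟩
    have h2 : ∀ j : ℕ, (1 : ℝ) ≤ 2 ^ j := fun j => one_le_pow₀ (by norm_num)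
    -- one step
    have hstep : ∀ k' < n, |(eval b (ψ k' l) - eval b (ψ (k' + 1) l)) -
        (eval x (ψ k' l) - eval x (ψ (k' + 1) l))| ≤
        2 ^ ((C₁ * (C + 4)) * (P + 1) + 2 * P) / 2 ^ g n l := by
      intro k' hk'
      obtain ⟨E, hE⟩ : ∃ E : MvPolynomial (Option (Fin m)) ℝ,
        E = ψ k' l + MvPolynomial.C (κ k' l) - ψ (k' + 1) l := ⟨_, rfl⟩
      have hEe : ∀ y : Option (Fin m) → ℝ,
          eval y E = eval y (ψ k' l) + κ k' l - eval y (ψ (k' + 1) l) := by
        intro y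
        rw [hE, map_sub, map_add, eval_C]
      have hEd : E.totalDegree ≤ D := by
        rw [hE]
        refine (MvPolynomial.totalDegree_sub _ _).trans (max_le ?_ (hdeg _ _))
        refine (MvPolynomial.totalDegree_add _ _).trans (max_le (hdeg _ _) ?_)
        rw [MvPolynomial.totalDegree_C]
        exact Nat.zero_le _
      have hEdep : DepC c l E := by
        intro y y' hy hyl
        rw [hEe, hEe, hdep k' l y y' hy hyl, hdep (k' + 1) l y y' hy hyl]
      have h6 := hst (P := P) (N := N) (s := s k') (a := a (k' + 1)) (g := g (k' + 1))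
        (M := 2 ^ P / 2 ^ X k' l) (x := x) (b := b) hlr hc (hdeg (k' + 1)) (hdep (k' + 1)) hEd
        hEdep (by positivity)
        (fun y hy => by
          rw [hEe]
          exact H1 k' hk' l hlr y hy)
        (fun l' hl' => by
          refine (H2 (k' + 1) hk' l' (hl'.trans hlr)).trans
            (div_le_div_of_nonneg_right ?_ (by positivity))
          refine pow_le_pow_right₀ (by norm_num) ?_
          rw [hN]
          omega)
        (by
          refine hb.1.trans ?_
          rw [div_le_div_iff₀ (by positivity) (by positivity), one_mul, ← pow_add]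
          refine pow_le_pow_right₀ (by norm_num) ?_
          have := H3 k' hk'
          omega)
        (fun l' hl' => by
          have hb' : NBx c (ψ n) (g n) (a n) (x none) l' b := hb.mono le_rfl hl'.le
          have h7 := hIH l' (by omega) (hl'.trans hlr) b hb' (k' + 1) hk'
          have h8 := hb.2 l' hl'
          have h9 := H2 n le_rfl l' (hl'.trans hlr)
          obtain ⟨G, hG⟩ : ∃ G : ℝ, G = 1 / 2 ^ g n l' := ⟨_, rfl⟩
          have hG0 : 0 < G := by rw [hG]; positivity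
          have h7' : |(eval b (ψ (k' + 1) l') - eval b (ψ n l')) -
              (eval x (ψ (k' + 1) l') - eval x (ψ n l'))| ≤ 2 ^ (C * (P + 1)) * G := by
            rw [hG, mul_one_div]
            exact h7
          have h9' : |x (some (c l')) - eval x (ψ n l')| ≤ 2 ^ P * G := by
            rw [hG, mul_one_div]
            exact h9
          rw [← hG] at h8
          have h10 : |(b (some (c l')) - eval b (ψ (k' + 1) l')) -
              (x (some (c l')) - eval x (ψ (k' + 1) l'))| ≤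
              (1 + 2 ^ P + 2 ^ (C * (P + 1))) * G := by
            have e : (b (some (c l')) - eval b (ψ (k' + 1) l')) -
              (x (some (c l')) - eval x (ψ (k' + 1) l')) =
              (b (some (c l')) - eval b (ψ n l')) - (x (some (c l')) - eval x (ψ n l')) -
              ((eval b (ψ (k' + 1) l') - eval b (ψ n l')) -
                (eval x (ψ (k' + 1) l') - eval x (ψ n l'))) := by ring
            rw [e]
            refine (abs_sub _ _).trans ?_
            have := abs_sub (b (some (c l')) - eval b (ψ n l')) (x (some (c l')) - eval x (ψ n l'))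
            linarith
          refine h10.trans ?_
          have h11 : (1 + 2 ^ P + 2 ^ (C * (P + 1)) : ℝ) ≤ 2 ^ (C * (P + 1) + P + 2) := by
            have e1 : (1 : ℝ) ≤ 2 ^ (C * (P + 1) + P) := h2 _
            have e2 : (2 : ℝ) ^ P ≤ 2 ^ (C * (P + 1) + P) :=
              pow_le_pow_right₀ (by norm_num) (by omega)
            have e3 : (2 : ℝ) ^ (C * (P + 1)) ≤ 2 ^ (C * (P + 1) + P) :=
              pow_le_pow_right₀ (by norm_num) (by omega)
            rw [pow_add _ (C * (P + 1) + P) 2]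
            linarith
          refine (mul_le_mul_of_nonneg_right h11 hG0.le).trans ?_
          rw [hG, mul_one_div, div_le_div_iff₀ (by positivity) (by positivity), ← pow_add,
            ← pow_add]
          refine pow_le_pow_right₀ (by norm_num) ?_
          have := H4 k' hk' l' (hl'.trans hlr)
          omega)
      have e : (eval b (ψ k' l) - eval b (ψ (k' + 1) l)) -
          (eval x (ψ k' l) - eval x (ψ (k' + 1) l)) = eval b E - eval x E := by
        rw [hEe, hEe]; ring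
      rw [e]
      refine h6.trans ?_
      have h12 : (2 : ℝ) ^ (C₁ * (P + N + 1)) * (2 ^ P / 2 ^ X k' l) / 2 ^ s k' =
          2 ^ (C₁ * (P + N + 1) + P) / 2 ^ (X k' l + s k') := by
        rw [pow_add, pow_add]
        field_simp
      rw [h12, div_le_div_iff₀ (by positivity) (by positivity), ← pow_add, ← pow_add]
      refine pow_le_pow_right₀ (by norm_num) ?_
      have h13 := H5 k' hk' l hlr
      have h14 : C₁ * (P + N + 1) ≤ (C₁ * (C + 4)) * (P + 1) := by
        rw [mul_assoc]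
        refine Nat.mul_le_mul_left _ ?_
        rw [hN]
        nlinarith [Nat.zero_le P, Nat.zero_le (C * P)]
      omega
    -- the telescoping sum
    obtain ⟨F, hF⟩ : ∃ F : ℕ → ℝ, ∀ i, F i = eval b (ψ i l) - eval x (ψ i l) :=
      ⟨_, fun _ => rfl⟩
    have e1 : (eval b (ψ k l) - eval b (ψ n l)) - (eval x (ψ k l) - eval x (ψ n l)) =
        ∑ i ∈ range (n - k), (F (k + i) - F (k + (i + 1))) := by
      rw [Finset.sum_range_sub' (fun i => F (k + i)), Nat.add_zero, Nat.add_sub_cancel' hk, hF,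
        hF]
      ring
    rw [e1]
    refine (Finset.abs_sum_le_sum_abs _ _).trans ?_
    have h15 : ∀ i ∈ range (n - k), |F (k + i) - F (k + (i + 1))| ≤
        2 ^ ((C₁ * (C + 4)) * (P + 1) + 2 * P) / 2 ^ g n l := by
      intro i hi
      have h16 := hstep (k + i) (by
        have := mem_range.1 hi
        omega)
      have e2 : F (k + i) - F (k + (i + 1)) =
          (eval b (ψ (k + i) l) - eval b (ψ (k + i + 1) l)) -
          (eval x (ψ (k + i) l) - eval x (ψ (k + i + 1) l)) := by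
        rw [hF, hF, ← Nat.add_assoc]; ring
      rw [e2]
      exact h16
    refine (Finset.sum_le_sum h15).trans ?_
    rw [Finset.sum_const, Finset.card_range, nsmul_eq_mul]
    have h17 : ((n - k : ℕ) : ℝ) ≤ 2 ^ P :=
      le_trans (by exact_mod_cast Nat.sub_le n k) hn
    refine (mul_le_mul_of_nonneg_right h17 (by positivity)).trans ?_
    rw [← mul_div_assoc, ← pow_add]
    refine div_le_div_of_nonneg_right (pow_le_pow_right₀ (by norm_num) ?_) (by positivity)
    have h18 : (C₁ * (C + 4) + 3) * (P + 1) ≤ max C (C₁ * (C + 4) + 3) * (P + 1) :=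
      Nat.mul_le_mul_right _ (le_max_right _ _)
    have h19 : P + ((C₁ * (C + 4)) * (P + 1) + 2 * P) ≤ (C₁ * (C + 4) + 3) * (P + 1) := by
      rw [add_mul]
      omega
    exact h19.trans h18

/-- **(KAP)** -/
theorem t_kap : KapStmt := by
  intro D r
  obtain ⟨C, h⟩ := kap_aux D r r
  refine ⟨C, ?_⟩
  intro m c n P ψ g X a s κ x hc hdeg hdep hn H1 H2 H3 H4 H5
  refine ⟨fun l => eval x (ψ n l) - eval x (ψ 0 l), fun l hl b hb => ?_⟩
  have h1 := h (κ := κ) hc hdeg hdep hn H1 H2 H3 H4 H5 l hl hl b hb 0 (Nat.zero_le n)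
  have e : eval b (ψ 0 l) + (eval x (ψ n l) - eval x (ψ 0 l)) - eval b (ψ n l) =
      (eval b (ψ 0 l) - eval b (ψ n l)) - (eval x (ψ 0 l) - eval x (ψ n l)) := by ring
  rw [e]
  exact h1

end Pool.V0F
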