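import Pool.Agent.H44.V0F.S2
import Pool.Agent.H71.V0F.Nup
import Pool.Agent.H91.V0F.Exj

/-!
# The rows of the target over the charts of an earlier window

`row`: the digits of the height of the target over the charts of `w`, given the positions of the
chain over the charts of an earlier window `b`. The exact positions of the chain are inserted: they
are full given the positions and the records (`fux`), the height to the digits of a later window is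
few bits given its record (`t_nu0`), and given the exact positions the rows of the height are the
rows of the coordinate (`exj`). `E`: the gradient exponent of the label of the target.
-/

set_option autoImplicit false

namespace Pool.V0F

open Finset Real MvPolynomial
open Pool.Agent.H49.Ent Pool.Agent.H32.Dense Pool.STK Pool.KA Pool.KSAT Pool.K2S Pool.PB Pool.GEN
open Pool.S6C Pool.RCD Pool.LA91 Pool.AVG96 Pool.OWN68
open Pool.UNJ (ceI)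

/-- There is a closed function which determines all others. -/
theorem cl_fin {Ω α β : Type} (f : Ω → α) (g : Ω → β) (A : Ω → Prop) :
    ∃ (V : Type) (z : Ω → V), Cl2 f g A z ∧ ∀ (V' : Type) (z' : Ω → V'), Cl2 f g A z' →
      ∀ ω ω', A ω → A ω' → z ω = z ω' → z' ω = z' ω' := by
  classical
  obtain ⟨R, hR⟩ : ∃ R : Ω → Ω → Prop, R = fun ω ω' =>
    A ω ∧ A ω' ∧ (f ω = f ω' ∨ g ω = g ω') := ⟨_, rfl⟩
  refine ⟨Option (Quot R), fun ω => some (Quot.mk R ω), ⟨⟨fun a => if h : ∃ ω, A ω ∧ f ω = a then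
    some (Quot.mk R h.choose) else none, fun ω hω => ?_⟩, fun a => if h : ∃ ω, A ω ∧ g ω = a then
    some (Quot.mk R h.choose) else none, fun ω hω => ?_⟩, ?_⟩
  · have h : ∃ ω', A ω' ∧ f ω' = f ω := ⟨ω, hω, rfl⟩
    simp only [dif_pos h]
    refine congrArg some (Quot.sound ?_)
    rw [hR]
    exact ⟨hω, h.choose_spec.1, Or.inl h.choose_spec.2.symm⟩
  · have h : ∃ ω', A ω' ∧ g ω' = g ω := ⟨ω, hω, rfl⟩
    simp only [dif_pos h]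
    refine congrArg some (Quot.sound ?_)
    rw [hR]
    exact ⟨hω, h.choose_spec.1, Or.inr h.choose_spec.2.symm⟩
  · rintro V' z' ⟨⟨φ, hφ⟩, ψ, hψ⟩ ω ω' _ _ e
    have e1 : Quot.mk R ω = Quot.mk R ω' := Option.some.inj e
    have hl : ∀ a b, R a b → z' a = z' b := by
      intro a b h
      rw [hR] at h
      obtain ⟨ha, hb, h | h⟩ := h
      · rw [hφ a ha, hφ b hb, h]
      · rw [hψ a ha, hψ b hb, h]
    exact congrArg (Quot.lift z' hl) e1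

variable {m : ℕ}

/-- **The finest record.** -/
theorem mx_fin {J : ℕ} {α β : ∀ J : ℕ, Fam m J → Type}
    (f : ∀ (J : ℕ) (F : Fam m J), F.Ω → α J F)
    (g : ∀ (J : ℕ) (F : Fam m J), F.Ω → β J F) (F : Fam m J) {A : F.Ω → Prop}
    (hA : 0 < Pe F.p A) : ∃ (V : Type) (z : F.Ω → V), (∀ k : ℝ, 0 ≤ k → Mx f g k F A z) ∧
      ∀ (V' : Type) (z' : F.Ω → V'), Cl2 (f J F) (g J F) A z' →
        ∀ ω ω', A ω → A ω' → z ω = z ω' → z' ω = z' ω' := by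
  obtain ⟨V, z, hz, h⟩ := cl_fin (f J F) (g J F) A
  refine ⟨V, z, fun k hk => ⟨hz, fun V' z' hz' => ?_⟩, h⟩
  have h1 : CH (Pool.Agent.H49.Ent.cond F.p A True) z' z = 0 :=
    CH_eq_zero (isLaw_cond F.isLaw hA).nonneg fun ω ω' hω hω' e =>
      h V' z' hz' ω ω' (of_cond_pos hω) (of_cond_pos hω') e
  rw [h1]
  positivity

/-- **(ROW)** The digits `P₁, …, P₂` of the height of the target over the charts of `w`, given the
positions of the chain over the charts of `b` to digits which the record at `x'` knows. -/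
theorem row {S : PCl m} {c : ℕ → Fin m} {r : ℕ} {sn : ℕ → ℝ → ℝ} {G : Set ℝ} {b o φ : ℝ}
    (L : Lad S c r sn G b o φ) (hI : (range r).image c = univ.erase (c r)) {w x x' : ℝ}
    {p n : ℕ → ℝ} {pr P₁ P₂ h δ rk E : ℝ} (hw : w ∈ G) (hx : x ∈ G) (hx' : x' ∈ G)
    (hbw : b ≤ w) (hwx : w ≤ x) (hxx : x + 60 * ((r : ℝ) + 1) * φ ≤ x') (hxo : x' ≤ o)
    (hx1 : x' + 60 * ((r : ℝ) + 1) * φ ≤ 1) (hp : ∀ i < r, sn i b - φ ≤ p i)
    (hpr : sn r w - φ ≤ pr) (hn : ∀ i < r, sn i x' ≤ n i ∧ n i ≤ 1) (tp : Tp r sn b φ n)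
    (hrk : rk < 1) (hE : 0 ≤ E) (hatt : AttG S ((range r).image c) (c r) w (sn r w) rk E)
    (hP0 : 0 ≤ P₁) (hP : P₁ ≤ P₂) (hPE : P₂ + E ≤ 1)
    (hPx : P₂ + 60 * ((r : ℝ) + 1) * φ ≤ sn r x)
    (hPw : P₂ + 60 * ((r : ℝ) + 1) * φ ≤ sn r w + (x' - w))
    (hraw : RawN S (univ.erase (c r)) (c r) P₁ (P₂ - P₁) h δ) {ε : ℝ} (hε : 0 < ε) :
    ∃ k : ℝ, 0 < k ∧ ∃ e₀ : ℝ, 0 < e₀ ∧ ∀ K : ℕ, Bas S (fun J F A =>
      ∀ (V : Type) (z : F.Ω → V), Mx (fun J F => ptr F J) (vg w) k F A z → ∀ u u₁ u₂,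
      (qJets m c 0 r 0 (fun _ _ => b) (fun l _ => p l) (fun l _ => n l)).P K e₀ J F A u →
      (qJet m ((range r).image c) (c r) 0 w pr P₁).P K e₀ J F A u₁ →
      (qJet m ((range r).image c) (c r) 0 w pr P₂).P K e₀ J F A u₂ →
      CH (Pool.Agent.H49.Ent.cond F.p A True) u₂ (fun ω => (u₁ ω, (u ω, (z ω, F.W ω)))) ≤
        ((1 - h) * (P₂ - P₁) * Real.log 2 + δ + 40 * ((r : ℝ) + 1) ^ 2 * φ + ε) * J) := by
  have hφ := L.φ0
  have hr0 : (0 : ℝ) ≤ r := Nat.cast_nonneg r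
  have hrφ : 0 ≤ (r : ℝ) * φ := by positivity
  have hx'1 : x' ≤ 1 := (hxo.trans_lt L.o1).le
  have hwx' : w ≤ x' := by nlinarith
  have hbx' : b ≤ x' := hbw.trans hwx'
  have hw1 : w ≤ 1 := hwx'.trans hx'1
  have hl2 : 0 < Real.log 2 := Real.log_pos one_lt_two
  have hl1 : Real.log 2 ≤ 1 := by
    have := Real.log_two_lt_d9
    linarith
  have hf : ∀ (J : ℕ) (F : Fam m J), ∃ φ : PtT F → PtT F, ∀ ω, ptr F J ω = φ (ptr F J ω) :=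
    fun J F => ⟨fun y => y, fun _ => rfl⟩
  have hy := kn_W (c := c)
  obtain ⟨ρ, hρ⟩ : ∃ ρ : ℝ, ρ = ε / 16 := ⟨_, rfl⟩
  have hρ0 : 0 < ρ := by rw [hρ]; positivity
  have t1 : ∀ l < r, P₂ + 20 * ((r : ℝ) + 1) * φ ≤ sn r w + (1 - sn l w) := by
    intro l hl
    have a := abs_le.1 (L.flat hl hw hx' hbw (hwx'.trans hxo) hbx' hxo)
    have a1 := hn l hl
    nlinarith [a.2]
  obtain ⟨k₁, hk₁, e₁, he₁, H₁⟩ := fux L hx' hbx' hxo hp hn tp ρ hρ0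
  obtain ⟨e₂, he₂, H₂⟩ := (t_nu0 L hf hy (w := w) (x := x) (x' := x') (ox := x') (pr := pr)
    (N := P₂) hw hx hx' hbw hwx hxx hxo le_rfl hx'1 hx1 hpr hPx hPw).mx L.pos ρ hρ0
  obtain ⟨e₃, he₃, H₃⟩ := (t_nu0 L hf hy (w := w) (x := x) (x' := x') (ox := x') (pr := pr)
    (N := P₁) hw hx hx' hbw hwx hxx hxo le_rfl hx'1 hx1 hpr (by linarith) (by linarith)).mx
      L.pos ρ hρ0
  obtain ⟨k₄, hk₄, e₄, he₄, H₄⟩ := exj L (i := r) (w := w) (pr := pr) (N := P₁) le_rfl hw hrk hE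
    hatt hpr hP0 (by linarith) (by nlinarith) (fun l hl => by linarith [t1 l hl]) ρ hρ0
  obtain ⟨k₅, hk₅, e₅, he₅, H₅⟩ := exj L (i := r) (w := w) (pr := pr) (N := P₂) le_rfl hw hrk hE
    hatt hpr (hP0.trans hP) hPE (by nlinarith) t1 ρ hρ0
  obtain ⟨k, hk, hkρ, hk4, hk5⟩ : ∃ k : ℝ, 0 < k ∧ k ≤ ρ ∧ k ≤ k₄ ∧ k ≤ k₅ :=
    ⟨min ρ (min k₄ k₅), lt_min hρ0 (lt_min hk₄ hk₅), min_le_left _ _,
      (min_le_right _ _).trans (min_le_left _ _), (min_le_right _ _).trans (min_le_right _ _)⟩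
  obtain ⟨e₀, he₀, l1, l2, l3, l4, l5⟩ : ∃ e₀ : ℝ, 0 < e₀ ∧ e₀ ≤ e₁ ∧ e₀ ≤ e₂ ∧ e₀ ≤ e₃ ∧
      e₀ ≤ e₄ ∧ e₀ ≤ e₅ :=
    ⟨min (min e₁ e₂) (min e₃ (min e₄ e₅)), lt_min (lt_min he₁ he₂) (lt_min he₃ (lt_min he₄ he₅)),
      (min_le_left _ _).trans (min_le_left _ _), (min_le_left _ _).trans (min_le_right _ _),
      (min_le_right _ _).trans (min_le_left _ _),
      (min_le_right _ _).trans ((min_le_right _ _).trans (min_le_left _ _)),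
      (min_le_right _ _).trans ((min_le_right _ _).trans (min_le_right _ _))⟩
  refine ⟨k, hk, e₀, he₀, fun K => Bas.mono 0 (((H₁ K).and (H₂ K)).and (((H₃ K).and (H₄ K)).and
    ((H₅ K).and ((hraw 0 le_rfl (by linarith)).and (pos_bas L.pos))))) ?_⟩
  rintro J - F A ⟨⟨H₁, H₂⟩, ⟨H₃, H₄⟩, H₅, hraw, hA⟩ V z hz u u₁ u₂ hu hu₁ hu₂
  have hJ0 : (0 : ℝ) ≤ J := Nat.cast_nonneg J
  obtain ⟨V', z', hz', hfin⟩ := mx_fin (fun J F => ptr F J) (vg x') F hA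
  obtain ⟨V'', z'', hz'', -⟩ := mx_fin (fun J F => ptr F J) (vg b) F hA
  have h1 := H₁ V' z' (hz' k₁ hk₁.le) u ((qJets m c 0 r 0 _ _ _).mono le_rfl l1 hu)
  have h1' := h1.2.1 V'' z'' (hz'' k₁ hk₁.le)
  have h1 := h1.1
  have h2 := H₂ V' z' (hz' _ (half_pos hρ0).le) u₂ ((qJet m _ _ _ _ _ _).mono le_rfl l2 hu₂)
  have h3 := H₃ V' z' (hz' _ (half_pos hρ0).le) u₁ ((qJet m _ _ _ _ _ _).mono le_rfl l3 hu₁)
  have h4 := (H₄ V z (Mx.le' hk4 hz) u₁ ((qJet m _ _ _ _ _ _).mono le_rfl l4 hu₁)).2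
  have h5 := (H₅ V z (Mx.le' hk5 hz) u₂ ((qJet m _ _ _ _ _ _).mono le_rfl l5 hu₂)).1
  obtain ⟨q', hq'⟩ : ∃ q' : F.Ω → ℝ, q' = Pool.Agent.H49.Ent.cond F.p A True := ⟨_, rfl⟩
  have hq'l : IsLaw q' := by
    rw [hq']
    exact isLaw_cond F.isLaw hA
  have h0 := hq'l.nonneg
  have hq'A : ∀ ω, 0 < q' ω → A ω := fun ω hω => by
    rw [hq'] at hω
    exact of_cond_pos hω
  -- the record at `b` is few bits given the record at `w`
  have hzb : CH q' z'' z ≤ k * J := by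
    rw [hq']
    refine hz.2 _ _ ((hz'' 0 le_rfl).1.mono ⟨fun x => x, fun _ _ => rfl⟩ ?_)
    obtain ⟨ψ, hψ⟩ := vg_mono hbw hw1 J F
    exact ⟨ψ, fun ω _ => hψ ω⟩
  -- the record at `w` is a function of the record at `x'`
  have hzx : ∀ ω ω', A ω → A ω' → z' ω = z' ω' → z ω = z ω' := by
    refine hfin V z (hz.1.mono ⟨fun x => x, fun _ _ => rfl⟩ ?_)
    obtain ⟨ψ, hψ⟩ := vg_mono hwx' hx'1 J F
    exact ⟨ψ, fun ω _ => hψ ω⟩
  rw [← hq'] at h1 h1' h2 h3 h4 h5 hraw ⊢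
  obtain ⟨X, hXd⟩ : ∃ X : F.Ω → Fin r → ℤ, X = fun ω (l : Fin r) => F.X J ω (c l) := ⟨_, rfl⟩
  obtain ⟨Y, hYd⟩ : ∃ Y : F.Ω → ℤ × ((ℕ → ℕ → ℤ) × (V × (ℕ × F.ζ))), Y = fun ω =>
    (u₁ ω, (u ω, (z ω, F.W ω))) := ⟨_, rfl⟩
  obtain ⟨C', hC'⟩ : ∃ C' : F.Ω → (ℕ → ℕ → ℤ) × (V' × (ℕ × F.ζ)), C' = fun ω =>
    (u ω, (z' ω, F.W ω)) := ⟨_, rfl⟩
  rw [← hXd, ← hC'] at h1
  rw [← hXd] at h1'
  have hXe : ∀ ω ω', X ω = X ω' → ceI ((range r).image c) (fun _ => J) (F.x ω) =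
      ceI ((range r).image c) (fun _ => J) (F.x ω') := by
    intro ω ω' e
    refine ceI_tup le_rfl fun l hl => ?_
    rw [hXd] at e
    exact congrFun e ⟨l, hl⟩
  rw [← hYd]
  -- the row given the exact positions
  have r1 := CH_le_add h0 u₂ (fun ω => F.X ⌊P₁ * J⌋₊ ω (c r)) (fun ω => (X ω, Y ω))
  have r2 := CH_le_add h0 u₂ (fun ω => F.X ⌊P₂ * J⌋₊ ω (c r))
    (fun ω => (F.X ⌊P₁ * J⌋₊ ω (c r), (X ω, Y ω)))
  have r3 : CH q' (fun ω => F.X ⌊P₁ * J⌋₊ ω (c r)) (fun ω => (X ω, Y ω)) ≤ ρ * J := by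
    refine le_trans (CH_mono_cond h0 fun ω ω' _ _ e => ?_) h4
    rw [hYd] at e
    simp only [Prod.mk.injEq] at e ⊢
    exact ⟨e.2.1, hXe ω ω' e.1, e.2.2.2.1, e.2.2.2.2⟩
  have r4 : CH q' u₂ (fun ω => (F.X ⌊P₂ * J⌋₊ ω (c r),
      (F.X ⌊P₁ * J⌋₊ ω (c r), (X ω, Y ω)))) ≤ ρ * J := by
    refine le_trans (CH_mono_cond h0 fun ω ω' _ _ e => ?_) h5
    rw [hYd] at e
    simp only [Prod.mk.injEq] at e ⊢
    exact ⟨e.1, hXe ω ω' e.2.2.1, e.2.2.2.2.2.1, e.2.2.2.2.2.2⟩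
  have r5 : CH q' (fun ω => F.X ⌊P₂ * J⌋₊ ω (c r))
      (fun ω => (F.X ⌊P₁ * J⌋₊ ω (c r), (X ω, Y ω))) ≤
      ((1 - h) * (P₂ - P₁) * Real.log 2 + δ) * J := by
    have e1 : P₁ + (P₂ - P₁) = P₂ := by ring
    have e2 : P₂ - P₁ - 0 = P₂ - P₁ := by ring
    rw [e1, e2, add_zero] at hraw
    refine le_trans (CH_mono_cond h0 fun ω ω' _ _ e => ?_) hraw
    rw [hYd] at e
    simp only [Prod.mk.injEq] at e ⊢
    rw [← hI]
    exact ⟨e.1, hXe ω ω' e.2.1, e.2.2.2.2.2⟩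
  have t1 := CH_exch h0 u₂ X Y
  have t3 := CH_le_add h0 X z'' Y
  have t4 : CH q' z'' Y ≤ CH q' z'' z := CH_mono_cond h0 fun ω ω' _ _ e => by
    rw [hYd] at e
    simp only [Prod.mk.injEq] at e
    exact e.2.2.1
  have t5 : CH q' X (fun ω => (z'' ω, Y ω)) ≤ CH q' X (fun ω => (u ω, (z'' ω, F.W ω))) :=
    CH_mono_cond h0 fun ω ω' _ _ e => by
      rw [hYd] at e
      simp only [Prod.mk.injEq] at e ⊢
      exact ⟨e.2.2.1, e.1, e.2.2.2.2⟩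
  have t6 : CH q' X (fun ω => ((u₂ ω, u₁ ω), C' ω)) ≤ CH q' X (fun ω => (u₂ ω, Y ω)) :=
    CH_mono_cond h0 fun ω ω' hω hω' e => by
      rw [hC'] at e
      rw [hYd]
      simp only [Prod.mk.injEq] at e ⊢
      exact ⟨e.1.1, e.1.2, e.2.1, hzx ω ω' (hq'A ω hω) (hq'A ω' hω') e.2.2.1, e.2.2.2⟩
  have t7 := CH_le_add h0 X (fun ω => (u₂ ω, u₁ ω)) C'
  have t8 := CH_subadd h0 u₂ u₁ C'
  have t9 : CH q' u₂ C' ≤ CH q' u₂ (fun ω => (z' ω, F.W ω)) :=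
    CH_mono_cond h0 fun ω ω' _ _ e => by
      rw [hC'] at e
      exact (Prod.ext_iff.mp e).2
  have t10 : CH q' u₁ C' ≤ CH q' u₁ (fun ω => (z' ω, F.W ω)) :=
    CH_mono_cond h0 fun ω ω' _ _ e => by
      rw [hC'] at e
      exact (Prod.ext_iff.mp e).2
  have e1 : 20 * (r : ℝ) ^ 2 * φ * Real.log 2 ≤ 40 * ((r : ℝ) + 1) ^ 2 * φ := by
    have a1 : 20 * (r : ℝ) ^ 2 * φ * Real.log 2 ≤ 20 * (r : ℝ) ^ 2 * φ * 1 :=
      mul_le_mul_of_nonneg_left hl1 (by positivity)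
    have a2 : 20 * (r : ℝ) ^ 2 * φ ≤ 40 * ((r : ℝ) + 1) ^ 2 * φ := by
      refine mul_le_mul_of_nonneg_right ?_ hφ.le
      nlinarith
    linarith
  have e2 := mul_le_mul_of_nonneg_right e1 hJ0
  have e3 := mul_le_mul_of_nonneg_right hkρ hJ0
  have e4 : ((1 - h) * (P₂ - P₁) * Real.log 2 + δ + 40 * ((r : ℝ) + 1) ^ 2 * φ + ε) * J =
      ((1 - h) * (P₂ - P₁) * Real.log 2 + δ) * J + 40 * ((r : ℝ) + 1) ^ 2 * φ * J +
        16 * (ρ * J) := by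
    rw [hρ]
    ring
  have e5 : ((∑ i ∈ range r, (1 - n i)) - 20 * (r : ℝ) ^ 2 * φ) * Real.log 2 * J - ρ * J =
      (∑ i ∈ range r, (1 - n i)) * Real.log 2 * J - 20 * (r : ℝ) ^ 2 * φ * Real.log 2 * J -
        ρ * J := by ring
  have hρJ : 0 ≤ ρ * J := by positivity
  rw [e5] at h1
  rw [e4]
  linarith only [t1, t3, t4, hzb, t5, h1', t6, t7, t8, t9, t10, h1, h2, h3, e2, e3, hρJ, r1, r2,
    r3, r4, r5]

end Pool.V0F
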